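import Pool.Agent.Q30.FJ.Cons

/-!
# Verbal subgroups and relatively free groups

`verbal W G` is the subgroup of `G` generated by the values of the words in `W`, and `Vf W Ω` is the free
group with basis `Ω` of the variety defined by the laws `w = 1`, `w ∈ W`. If the groups of finite rank
`Vf W (Fin n)` are in the class `C`, then so are all groups `Vf W Ω` and their semidirect products with groups
in `C` which act by permutations of the basis.
-/

set_option autoImplicit false

namespace Pool.Agent.J4.H89.PV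

open Pool.Agent.Y110.FJ
open Pool.Agent.Y462.SS (Closed)

/-- The verbal subgroup: the subgroup generated by all values in `G` of the words in `W`. -/
def verbal (W : Set (FreeGroup ℕ)) (G : Type) [Group G] : Subgroup G :=
  Subgroup.closure {g : G | ∃ w ∈ W, ∃ f : ℕ → G, FreeGroup.lift f w = g}

theorem lift_comp {X G H : Type} [Group G] [Group H] (φ : G →* H) (f : X → G) (w : FreeGroup X) :
    φ (FreeGroup.lift f w) = FreeGroup.lift (fun i => φ (f i)) w := by
  have : φ.comp (FreeGroup.lift f) = FreeGroup.lift (fun i => φ (f i)) := by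
    refine FreeGroup.ext_hom _ _ (fun i => ?_)
    rw [MonoidHom.comp_apply, FreeGroup.lift_apply_of, FreeGroup.lift_apply_of]
  rw [← this]; rfl

variable (W : Set (FreeGroup ℕ))

theorem verbal_map_le {G H : Type} [Group G] [Group H] (φ : G →* H) :
    (verbal W G).map φ ≤ verbal W H := by
  rw [verbal, MonoidHom.map_closure, Subgroup.closure_le]
  rintro _ ⟨g, ⟨w, hw, f, rfl⟩, rfl⟩
  exact Subgroup.subset_closure ⟨w, hw, fun i => φ (f i), (lift_comp φ f w).symm⟩

theorem verbal_le_comap {G H : Type} [Group G] [Group H] (φ : G →* H) :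
    verbal W G ≤ (verbal W H).comap φ := Subgroup.map_le_iff_le_comap.1 (verbal_map_le W φ)

instance verbal_char (G : Type) [Group G] : (verbal W G).Characteristic := by
  rw [Subgroup.characteristic_iff_le_comap]
  intro φ
  exact verbal_le_comap W φ.toMonoidHom

/-- the group kills the words -/
def Kills (G : Type) [Group G] : Prop := verbal W G = ⊥

theorem kills_quot (G : Type) [Group G] : Kills W (G ⧸ verbal W G) := by
  show Subgroup.closure _ = ⊥
  rw [Subgroup.closure_eq_bot_iff]
  rintro _ ⟨w, hw, f, rfl⟩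
  rw [Set.mem_singleton_iff]
  have hs : ∀ i, ∃ g : G, QuotientGroup.mk' (verbal W G) g = f i :=
    fun i => QuotientGroup.mk'_surjective _ (f i)
  choose g hg using hs
  have h1 : f = fun i => QuotientGroup.mk' (verbal W G) (g i) := funext fun i => (hg i).symm
  rw [h1, ← lift_comp]
  exact (QuotientGroup.eq_one_iff _).mpr (Subgroup.subset_closure ⟨w, hw, g, rfl⟩)

theorem Kills.le_ker {G H : Type} [Group G] [Group H] (h : Kills W H) (φ : G →* H) :
    verbal W G ≤ φ.ker := by
  intro x hx
  have h1 := verbal_map_le W φ (Subgroup.mem_map_of_mem φ hx)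
  rw [h] at h1
  exact h1

/-- the induced homomorphism -/
def vmap {G H : Type} [Group G] [Group H] (φ : G →* H) :
    G ⧸ verbal W G →* H ⧸ verbal W H :=
  QuotientGroup.map _ _ φ (verbal_le_comap W φ)

@[simp] theorem vmap_mk {G H : Type} [Group G] [Group H] (φ : G →* H) (x : G) :
    vmap W φ (QuotientGroup.mk' _ x) = QuotientGroup.mk' _ (φ x) := rfl

theorem vmap_comp {G H K : Type} [Group G] [Group H] [Group K] (φ : G →* H) (ψ : H →* K)
    (x : G ⧸ verbal W G) : vmap W ψ (vmap W φ x) = vmap W (ψ.comp φ) x := by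
  obtain ⟨x, rfl⟩ := QuotientGroup.mk'_surjective _ x
  rfl

theorem vmap_id {G : Type} [Group G] (x : G ⧸ verbal W G) : vmap W (MonoidHom.id G) x = x := by
  obtain ⟨x, rfl⟩ := QuotientGroup.mk'_surjective _ x
  rfl

/-- the relatively free group with basis `Ω` -/
abbrev Vf (Ω : Type) : Type := FreeGroup Ω ⧸ verbal W (FreeGroup Ω)

/-- `MulEquiv` induced by an isomorphism -/
def vequiv {G H : Type} [Group G] [Group H] (e : G ≃* H) : G ⧸ verbal W G ≃* H ⧸ verbal W H where
  toFun := vmap W e.toMonoidHom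
  invFun := vmap W e.symm.toMonoidHom
  left_inv x := by
    rw [vmap_comp]
    have : e.symm.toMonoidHom.comp e.toMonoidHom = MonoidHom.id G := by
      ext x; exact e.symm_apply_apply x
    rw [this, vmap_id]
  right_inv x := by
    rw [vmap_comp]
    have : e.toMonoidHom.comp e.symm.toMonoidHom = MonoidHom.id H := by
      ext x; exact e.apply_symm_apply x
    rw [this, vmap_id]
  map_mul' x y := map_mul _ x y

/-- the action of the permutations of the basis -/
def vperm (Ω : Type) : Equiv.Perm Ω →* MulAut (Vf W Ω) where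
  toFun p := vequiv W (FreeGroup.freeGroupCongr p)
  map_one' := by
    ext x
    obtain ⟨x, rfl⟩ := QuotientGroup.mk'_surjective _ x
    exact congrArg (QuotientGroup.mk' _) (FreeGroup.map.id' x)
  map_mul' p q := by
    ext x
    obtain ⟨x, rfl⟩ := QuotientGroup.mk'_surjective _ x
    exact congrArg (QuotientGroup.mk' _) (FreeGroup.map.comp (f := q) p x).symm

theorem vperm_mk (Ω : Type) (p : Equiv.Perm Ω) (x : FreeGroup Ω) :
    vperm W Ω p (QuotientGroup.mk' _ x) = QuotientGroup.mk' _ (FreeGroup.map p x) := rfl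

/-- finite supports -/
theorem supp (Ω : Type) (x : FreeGroup Ω) : ∃ S : Finset Ω, ∀ T : Set Ω, (S : Set Ω) ⊆ T →
    ∃ y : FreeGroup T, FreeGroup.map (fun t : T => (t : Ω)) y = x := by
  classical
  induction x using FreeGroup.induction_on with
  | C1 => exact ⟨∅, fun T _ => ⟨1, map_one _⟩⟩
  | of a => exact ⟨{a}, fun T hT => ⟨FreeGroup.of ⟨a, hT (by simp)⟩, FreeGroup.map.of⟩⟩
  | inv_of a h =>
    exact ⟨{a}, fun T hT => ⟨(FreeGroup.of ⟨a, hT (by simp)⟩)⁻¹, by
      rw [map_inv, FreeGroup.map.of]⟩⟩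
  | mul a b ha hb =>
    obtain ⟨S, hS⟩ := ha
    obtain ⟨S', hS'⟩ := hb
    refine ⟨S ∪ S', fun T hT => ?_⟩
    obtain ⟨y, hy⟩ := hS T (fun t ht => hT (by simp [Finset.mem_coe.1 ht]))
    obtain ⟨z, hz⟩ := hS' T (fun t ht => hT (by simp [Finset.mem_coe.1 ht]))
    exact ⟨y * z, by rw [map_mul, hy, hz]⟩

/-- the retraction to a subset of the basis -/
noncomputable def retr (Ω : Type) (T : Set Ω) : FreeGroup Ω →* FreeGroup T := by
  classical
  exact FreeGroup.lift fun x => if h : x ∈ T then FreeGroup.of ⟨x, h⟩ else 1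

theorem retr_map (Ω : Type) (T : Set Ω) :
    (retr Ω T).comp (FreeGroup.map (fun t : T => (t : Ω))) = MonoidHom.id _ := by
  refine FreeGroup.ext_hom _ _ fun t => ?_
  rw [MonoidHom.comp_apply, FreeGroup.map.of]
  simp [retr]

theorem vmap_injective_of_retract {G H : Type} [Group G] [Group H] (i : G →* H) (r : H →* G)
    (hr : r.comp i = MonoidHom.id G) : Function.Injective (vmap W i) := by
  intro x y hxy
  have h1 := congrArg (vmap W r) hxy
  rwa [vmap_comp, vmap_comp, hr, vmap_id, vmap_id] at h1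

theorem emb (Ω : Type) (T : Set Ω) :
    Function.Injective (vmap W (FreeGroup.map (fun t : T => (t : Ω)))) :=
  vmap_injective_of_retract W _ (retr Ω T) (retr_map Ω T)

variable {C : ∀ (G : Type) [Group G], Prop}

/-- relatively free groups of infinite rank -/
theorem vf_mem (hC : Closed C) (hW : ∀ n : ℕ, C (Vf W (Fin n))) (Ω : Type) : C (Vf W Ω) := by
  classical
  refine Q30.FJ.of_fg hC (Vf W Ω) fun s => ?_
  have h1 : ∀ x : Vf W Ω, ∃ S : Finset Ω, ∀ T : Set Ω, (S : Set Ω) ⊆ T →
      x ∈ (vmap W (FreeGroup.map (fun t : T => (t : Ω)))).range := by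
    intro x
    obtain ⟨x, rfl⟩ := QuotientGroup.mk'_surjective _ x
    obtain ⟨S, hS⟩ := supp Ω x
    refine ⟨S, fun T hT => ?_⟩
    obtain ⟨y, hy⟩ := hS T hT
    exact ⟨QuotientGroup.mk' _ y, by rw [vmap_mk, hy]⟩
  choose S hS using h1
  let T : Finset Ω := s.biUnion S
  have hle : Subgroup.closure (s : Set (Vf W Ω)) ≤
      (vmap W (FreeGroup.map (fun t : (T : Set Ω) => (t : Ω)))).range := by
    rw [Subgroup.closure_le]
    intro x hx
    refine hS x (T : Set Ω) ?_
    intro t ht
    exact Finset.mem_coe.2 (Finset.mem_biUnion.2 ⟨x, hx, ht⟩)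
  have hT : C (Vf W (T : Set Ω)) := by
    let e : (T : Set Ω) ≃ Fin T.card := T.equivFin
    exact hC.of_injective _ _ (vequiv W (FreeGroup.freeGroupCongr e)).toMonoidHom
      (vequiv W (FreeGroup.freeGroupCongr e)).injective (hW T.card)
  let e := MonoidHom.ofInjective (emb W Ω (T : Set Ω))
  exact hC.of_injective _ _ (e.symm.toMonoidHom.comp (Subgroup.inclusion hle))
    (e.symm.injective.comp (Subgroup.inclusion_injective hle)) hT

/-- semidirect products with permutations of the basis -/
theorem semi_mem (hC : ClosedE C) (hW : ∀ n : ℕ, C (Vf W (Fin n))) (Ω Q : Type) [Group Q]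
    (ρ : Q →* Equiv.Perm Ω) (hQ : C Q) : C (Vf W Ω ⋊[(vperm W Ω).comp ρ] Q) := by
  refine Q30.FJ.nom C hC Ω (Vf W Ω) Q (vperm W Ω) ρ ?_ (vf_mem W hC.base hW Ω) hQ
  intro x
  obtain ⟨x, rfl⟩ := QuotientGroup.mk'_surjective _ x
  obtain ⟨S, hS⟩ := supp Ω x
  refine ⟨S, S.finite_toSet, fun p hp => ?_⟩
  obtain ⟨y, rfl⟩ := hS S subset_rfl
  rw [vperm_mk]
  congr 1
  have h1 : (FreeGroup.map p).comp (FreeGroup.map (fun t : (S : Set Ω) => (t : Ω))) =
      FreeGroup.map (fun t : (S : Set Ω) => (t : Ω)) := by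
    refine FreeGroup.ext_hom _ _ fun t => ?_
    rw [MonoidHom.comp_apply, FreeGroup.map.of, FreeGroup.map.of, hp t t.2]
  exact congrArg (fun f => f y) h1

end Pool.Agent.J4.H89.PV
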