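import Pool.Agent.J4.H89.PV.Tf
import Pool.Agent.Helper73.Cayley

/-!
# The tree of a free group
-/

set_option autoImplicit false

namespace Pool.Agent.J4.H89.PV

open SimpleGraph

section cay

variable (X : Type)

theorem inv_letter (y : X × Bool) : (FreeGroup.mk [y])⁻¹ = FreeGroup.mk [(y.1, !y.2)] := by
  rw [FreeGroup.inv_mk]
  rfl

theorem letter_ne_one (y : X × Bool) : FreeGroup.mk [y] ≠ 1 := by
  classical
  intro h
  have h1 := congrArg FreeGroup.toWord h
  rw [FreeGroup.toWord_mk, FreeGroup.toWord_one] at h1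
  simp at h1

/-- the Cayley graph -/
def CayX : SimpleGraph (FreeGroup X) where
  Adj u v := ∃ y : X × Bool, v = u * FreeGroup.mk [y]
  symm := ⟨by
    rintro u v ⟨y, rfl⟩
    exact ⟨(y.1, !y.2), by rw [← inv_letter, mul_inv_cancel_right]⟩⟩
  loopless := ⟨by
    rintro u ⟨y, hy⟩
    exact letter_ne_one X y (by simpa using hy.symm)⟩

theorem step [DecidableEq X] (y : X × Bool) (w : FreeGroup X) :
    ((FreeGroup.mk [y] * w).norm = w.norm + 1) ∨
      ((FreeGroup.mk [y] * w).norm + 1 = w.norm ∧ ∃ L, w.toWord = (y.1, !y.2) :: L) := by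
  have h1 : (FreeGroup.mk [y] * w).toWord = FreeGroup.reduce (y :: w.toWord) := by
    conv_lhs => rw [← FreeGroup.mk_toWord (x := w), FreeGroup.mul_mk, FreeGroup.toWord_mk]
    rfl
  rw [FreeGroup.reduce.cons, FreeGroup.reduce_toWord] at h1
  unfold FreeGroup.norm
  rw [h1]
  cases h : w.toWord with
  | nil => exact Or.inl rfl
  | cons hd tl =>
    by_cases hc : y.1 = hd.1 ∧ y.2 = !hd.2
    · right
      simp only [if_pos hc]
      refine ⟨rfl, tl, ?_⟩
      obtain ⟨h2, h3⟩ := hc
      have h4 : hd = (y.1, !y.2) := by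
        rw [h2, h3, Bool.not_not]
      rw [h4]
    · left
      simp only [if_neg hc]
      rfl

theorem cayX_acyclic : (CayX X).IsAcyclic := by
  classical
  refine Pool.Agent.Helper73.acyclic_of_height (CayX X) (fun u => (u⁻¹).norm) ?_ ?_
  · rintro u v ⟨y, rfl⟩
    rw [mul_inv_rev, inv_letter]
    rcases step X (y.1, !y.2) u⁻¹ with h | h <;> omega
  · rintro v u w ⟨y, rfl⟩ ⟨z, rfl⟩ h1 h2
    rw [mul_inv_rev, inv_letter] at h1 h2
    rcases step X (y.1, !y.2) v⁻¹ with h | ⟨_, L, hL⟩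
    · omega
    rcases step X (z.1, !z.2) v⁻¹ with h | ⟨_, L', hL'⟩
    · omega
    have h3 : (y.1, !(!y.2)) = (z.1, !(!z.2)) := (List.cons.inj (hL.symm.trans hL')).1
    rw [Bool.not_not, Bool.not_not] at h3
    have h4 : y = z := h3
    rw [h4]

theorem cayX_reach (w : FreeGroup X) : ∀ v : FreeGroup X, (CayX X).Reachable v (v * w) := by
  refine FreeGroup.induction_on (C := fun w => ∀ v : FreeGroup X, (CayX X).Reachable v (v * w)) w
    ?_ ?_ ?_ ?_
  · intro v; rw [mul_one]
  · intro i v; exact SimpleGraph.Adj.reachable ⟨(i, true), rfl⟩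
  · intro i _ v; exact SimpleGraph.Adj.reachable ⟨(i, false), rfl⟩
  · intro a b ha hb v
    rw [← mul_assoc]
    exact (ha v).trans (hb (v * a))

theorem cayX_tree : (CayX X).IsTree := by
  refine ⟨?_, cayX_acyclic X⟩
  have : Nonempty (FreeGroup X) := ⟨1⟩
  refine ⟨fun u v => ?_⟩
  have := cayX_reach X (u⁻¹ * v) u
  rwa [mul_inv_cancel_left] at this

theorem cayX_act (g u v : FreeGroup X) (h : (CayX X).Adj u v) : (CayX X).Adj (g • u) (g • v) := by
  obtain ⟨y, rfl⟩ := h
  exact ⟨y, by rw [smul_eq_mul, smul_eq_mul, mul_assoc]⟩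

theorem cayX_free (N : Subgroup (FreeGroup X)) : FreeOn (CayX X) N where
  vert n _ v h := by
    rw [smul_eq_mul] at h
    simpa using h
  edge n _ u v h h1 h2 := by
    have h3 : n ^ 2 = 1 := by
      rw [smul_eq_mul] at h1 h2
      rw [← h1, ← mul_assoc, ← pow_two] at h2
      simpa using h2
    exact (pow_eq_one_iff_left (by norm_num : (2 : ℕ) ≠ 0)).1 h3

theorem free_TF : TF (FreeGroup X) := fun _ _ hk h => (pow_eq_one_iff_left hk.ne').1 h

end cay

end Pool.Agent.J4.H89.PV
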