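import Pool.Agent.J4.H89.PV.Tree

/-!
# Torsion in verbal quotients
-/

set_option autoImplicit false

namespace Pool.Agent.J4.H89.PV

open SimpleGraph
open Pool.Agent.N24.TR

/-- the group is torsion-free -/
def TF (G : Type) [Group G] : Prop := ∀ (x : G) (k : ℕ), 0 < k → x ^ k = 1 → x = 1

/-- roots of products of commutators -/
def CR (G : Type) [Group G] : Prop :=
  ∀ (x : G) (k : ℕ), 0 < k → x ^ k ∈ commutator G → x ∈ commutator G

theorem free_CR (X : Type) : CR (FreeGroup X) := by
  intro x k hk hx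
  have h1 : ∀ y : FreeGroup X, y ∈ commutator (FreeGroup X) ↔ Abelianization.of y = 1 := by
    intro y
    rw [← MonoidHom.mem_ker, Abelianization.ker_of]
  rw [h1] at hx ⊢
  rw [map_pow] at hx
  let a : FreeAbelianGroup X := Additive.ofMul (Abelianization.of x)
  have h2 : k • a = 0 := congrArg Additive.ofMul hx
  have h3 : k • (FreeAbelianGroup.equivFinsupp X a) = 0 := by
    rw [← map_nsmul, h2, map_zero]
  have h4 : FreeAbelianGroup.equivFinsupp X a = 0 := by
    ext i
    have h5 := DFunLike.congr_fun h3 i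
    simpa [hk.ne'] using h5
  have h5 : a = 0 := (FreeAbelianGroup.equivFinsupp X).injective (by rw [h4, map_zero])
  exact congrArg Additive.toMul h5

theorem CR.of_retract {G H : Type} [Group G] [Group H] (i : G →* H) (r : H →* G)
    (hri : ∀ g, r (i g) = g) (h : CR H) : CR G := by
  intro x k hk hx
  have h1 : i x ^ k ∈ commutator H := by
    rw [← map_pow]
    have h2 : (commutator G).map i ≤ commutator H := by
      rw [commutator_def, commutator_def, Subgroup.map_commutator]
      exact Subgroup.commutator_mono le_top le_top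
    exact h2 (Subgroup.mem_map_of_mem i hx)
  have h2 := h (i x) k hk h1
  have h3 : (commutator H).map r ≤ commutator G := by
    rw [commutator_def, commutator_def, Subgroup.map_commutator]
    exact Subgroup.commutator_mono le_top le_top
  have h4 := h3 (Subgroup.mem_map_of_mem r h2)
  rwa [hri] at h4

variable (W : Set (FreeGroup ℕ))

theorem verbal_le_commutator (hW : W ⊆ (commutator (FreeGroup ℕ) : Set (FreeGroup ℕ)))
    (G : Type) [Group G] : verbal W G ≤ commutator G := by
  rw [verbal, Subgroup.closure_le]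
  rintro _ ⟨w, hw, f, rfl⟩
  have h3 : (commutator (FreeGroup ℕ)).map (FreeGroup.lift f) ≤ commutator G := by
    rw [commutator_def, commutator_def, Subgroup.map_commutator]
    exact Subgroup.commutator_mono le_top le_top
  exact h3 (Subgroup.mem_map_of_mem _ (hW hw))

theorem vf_TF (h : ∀ n : ℕ, TF (Vf W (Fin n))) (Ω : Type) : TF (Vf W Ω) := by
  classical
  intro x k hk hx
  obtain ⟨x, rfl⟩ := QuotientGroup.mk'_surjective _ x
  obtain ⟨S, hS⟩ := supp Ω x
  obtain ⟨y, rfl⟩ := hS S subset_rfl
  have e : (S : Set Ω) ≃ Fin S.card := S.equivFin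
  have h1 : TF (Vf W (S : Set Ω)) := by
    intro z j hj hz
    have h2 := h S.card (vequiv W (FreeGroup.freeGroupCongr e) z) j hj
      (by rw [← map_pow, hz, map_one])
    exact (vequiv W (FreeGroup.freeGroupCongr e)).injective (by rw [h2, map_one])
  have h2 : vmap W (FreeGroup.map (fun t : (S : Set Ω) => (t : Ω)))
      ((QuotientGroup.mk' _ y) ^ k) = 1 := by
    rw [map_pow, vmap_mk]
    exact hx
  have h3 : (QuotientGroup.mk' (verbal W (FreeGroup (S : Set Ω))) y) ^ k = 1 :=
    emb W Ω (S : Set Ω) (by rw [h2, map_one])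
  have h4 := h1 _ k hk h3
  rw [← vmap_mk, h4, map_one]

theorem quot_TF {N H : Type} [Group N] [Group H] (i : N →* H) (r : H →* N)
    (hri : ∀ n, r (i n) = n) (h : TF (H ⧸ verbal W H)) (x : N) (k : ℕ) (hk : 0 < k)
    (hx : x ^ k ∈ verbal W N) : x ∈ verbal W N := by
  have h3 : Function.Injective (vmap W i) :=
    vmap_injective_of_retract W i r (MonoidHom.ext fun n => hri n)
  have h1 : (QuotientGroup.mk' (verbal W N) x) ^ k = 1 := by
    rw [← map_pow]
    exact (QuotientGroup.eq_one_iff _).2 hx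
  have h4 : vmap W i (QuotientGroup.mk' (verbal W N) x) = 1 :=
    h _ k hk (by rw [← map_pow, h1, map_one])
  have h5 : QuotientGroup.mk' (verbal W N) x = 1 := h3 (by rw [h4, map_one])
  exact (QuotientGroup.eq_one_iff _).1 h5

variable {G V : Type} [Group G] [MulAction G V] {T : SimpleGraph V}

theorem main_TF (hT : T.IsTree)
    (hact : ∀ (g : G) (u v : V), T.Adj u v → T.Adj (g • u) (g • v))
    (N : Subgroup G) [hNn : N.Normal] (hN : FreeOn T N)
    (hWc : W ⊆ (commutator (FreeGroup ℕ) : Set (FreeGroup ℕ)))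
    (hW : ∀ n : ℕ, TF (Vf W (Fin n))) (hG : TF G) : TF (G ⧸ (verbal W N).map N.subtype) := by
  obtain ⟨o⟩ := hT.connected.nonempty
  intro x k hk hx
  obtain ⟨g, rfl⟩ := QuotientGroup.mk'_surjective _ x
  have hgk : g ^ k ∈ (verbal W N).map N.subtype := by
    rw [← map_pow] at hx
    exact (QuotientGroup.eq_one_iff _).1 hx
  obtain ⟨m, hm, hmg⟩ := hgk
  have hmg' : (m : G) = g ^ k := hmg
  -- the subgroup generated by `N` and `g`
  obtain ⟨M, hM⟩ : ∃ M : Subgroup G, M = N ⊔ Subgroup.zpowers g := ⟨_, rfl⟩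
  have hNM : N ≤ M := hM ▸ le_sup_left
  have hgM : g ∈ M := hM ▸ (le_sup_right (a := N)) (Subgroup.mem_zpowers g)
  have hgkN : g ^ k ∈ N := hmg' ▸ m.2
  have hmk : ∀ h ∈ M, ∃ a : ℤ, QuotientGroup.mk' N h = (QuotientGroup.mk' N g) ^ a := by
    intro h hh
    rw [hM, ← SetLike.mem_coe, Subgroup.normal_mul] at hh
    obtain ⟨n, hn, z, hz, rfl⟩ := hh
    obtain ⟨a, rfl⟩ := hz
    refine ⟨a, ?_⟩
    simp only
    rw [map_mul, map_zpow, show QuotientGroup.mk' N n = 1 from (QuotientGroup.eq_one_iff n).2 hn,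
      one_mul]
  have hpow : ∀ h ∈ M, h ^ k ∈ N := by
    intro h hh
    obtain ⟨a, ha⟩ := hmk h hh
    have h1 : QuotientGroup.mk' N (h ^ k) = 1 := by
      rw [map_pow, ha, ← zpow_natCast, ← zpow_mul, mul_comm, zpow_mul, zpow_natCast, ← map_pow,
        show QuotientGroup.mk' N (g ^ k) = 1 from (QuotientGroup.eq_one_iff _).2 hgkN, one_zpow]
    exact (QuotientGroup.eq_one_iff _).1 h1
  have hvert : ∀ h ∈ M, ∀ v : V, h • v = v → h = 1 := by
    intro h hh v hv
    have h1 : h ^ k • v = v := by
      clear hk hx hmg hmg' hgkN hpow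
      induction k with
      | zero => rw [pow_zero, one_smul]
      | succ k ih => rw [pow_succ, mul_smul, hv, ih]
    exact hG h k hk (hN.vert _ (hpow h hh) v h1)
  have hMf : FreeOn T M := by
    refine ⟨hvert, fun h hh u v _ h1 h2 => ?_⟩
    have h3 : h ^ 2 = 1 := hvert _ (M.pow_mem hh 2) u (by rw [pow_two, mul_smul, h1, h2])
    exact hG h 2 (by norm_num) h3
  obtain ⟨i, r, hri, -⟩ := split hT hact o M hMf
  have hMC : CR M := CR.of_retract i r hri (free_CR _)
  have hg1 : (⟨g, hgM⟩ : M) ^ k ∈ commutator M := by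
    have h1 := verbal_le_commutator W hWc N hm
    have h2 : (commutator N).map (Subgroup.inclusion hNM) ≤ commutator M := by
      rw [commutator_def, commutator_def, Subgroup.map_commutator]
      exact Subgroup.commutator_mono le_top le_top
    have h3 := h2 (Subgroup.mem_map_of_mem _ h1)
    have h4 : Subgroup.inclusion hNM m = (⟨g, hgM⟩ : M) ^ k := Subtype.ext hmg'
    rwa [h4] at h3
  have hg2 := hMC _ k hk hg1
  -- `M / N` is abelian
  have hgN : g ∈ N := by
    have h1 : commutator M ≤ ((QuotientGroup.mk' N).comp M.subtype).ker := by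
      rw [commutator_def, Subgroup.commutator_le]
      intro a _ b _
      obtain ⟨s, hs⟩ := hmk a a.2
      obtain ⟨t, ht⟩ := hmk b b.2
      rw [MonoidHom.mem_ker, map_commutatorElement, commutatorElement_eq_one_iff_mul_comm]
      show QuotientGroup.mk' N (a : G) * QuotientGroup.mk' N (b : G) =
        QuotientGroup.mk' N (b : G) * QuotientGroup.mk' N (a : G)
      rw [hs, ht, ← zpow_add, ← zpow_add, add_comm]
    have h2 : QuotientGroup.mk' N g = 1 := h1 hg2
    exact (QuotientGroup.eq_one_iff _).1 h2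
  -- the end
  obtain ⟨i, r, hri, -⟩ := split hT hact o N hN
  have h5 := quot_TF W i r hri (vf_TF W hW (XX N V)) ⟨g, hgN⟩ k hk (by
    have h2 : (⟨g, hgN⟩ : N) ^ k = m := Subtype.ext hmg'.symm
    rw [h2]
    exact hm)
  exact (QuotientGroup.eq_one_iff _).2 ⟨⟨g, hgN⟩, h5, rfl⟩

end Pool.Agent.J4.H89.PV
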