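import Pool.Agent.J4.H89.PV.Base
import Pool.Agent.N24.TR.Tree

/-!
# Verbal quotients of normal subgroups acting freely on trees

Let `G` act on a tree `T`, and let `N` be a normal subgroup which acts freely. The half-edges of the graph
`T / N` are permuted by `G / N`, and `G` embeds in the semidirect product of the free group on the half-edges
and `G / N` such that `N` is a retract of this free group.
-/

set_option autoImplicit false

namespace Pool.Agent.J4.H89.PV

open SimpleGraph
open Pool.Agent.N24.TR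
open Pool.Agent.Y110.FJ (ClosedE)

/-- the subgroup acts freely on the tree (on the vertices and on the edges) -/
structure FreeOn {G V : Type} [Group G] [MulAction G V] (T : SimpleGraph V) (N : Subgroup G) :
    Prop where
  vert : ∀ n ∈ N, ∀ v : V, n • v = v → n = 1
  edge : ∀ n ∈ N, ∀ u v : V, T.Adj u v → n • u = v → n • v = u → n = 1

section walks

variable {V M M' : Type} {T : SimpleGraph V} [Group M] [Group M']

theorem map_wp (e : V → V → M) (φ : M →* M') {u v : V} (p : T.Walk u v) :
    φ (wp e p) = wp (fun u v => φ (e u v)) p := by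
  induction p with
  | nil => exact map_one φ
  | cons h p ih => rw [wp_cons, wp_cons, map_mul, ih]

theorem wp_tel (e : V → V → M) (c : V → M) (h : ∀ u v, T.Adj u v → e u v = (c u)⁻¹ * c v)
    {u v : V} (p : T.Walk u v) : wp e p = (c u)⁻¹ * c v := by
  induction p with
  | nil => simp
  | cons h' p ih =>
    rw [wp_cons, ih, h _ _ h']
    group

theorem map_gam (hT : T.IsTree) (e : V → V → M) (φ : M →* M') (u v : V) :
    φ (gam hT e u v) = gam hT (fun u v => φ (e u v)) u v := map_wp e φ _

theorem gam_tel (hT : T.IsTree) (e : V → V → M) (c : V → M)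
    (h : ∀ u v, T.Adj u v → e u v = (c u)⁻¹ * c v) (u v : V) : gam hT e u v = (c u)⁻¹ * c v :=
  wp_tel e c h _

end walks

section coord

variable {G V : Type} [Group G] [MulAction G V] {T : SimpleGraph V}

theorem coord (N : Subgroup G) (h : ∀ n ∈ N, ∀ v : V, n • v = v → n = 1) :
    ∃ c : V → N, ∀ (n : N) (v : V), c ((n : G) • v) = n * c v := by
  classical
  let s : Setoid V := MulAction.orbitRel N V
  have h1 : ∀ v : V, ∃ n : N, (n : G) • (Quotient.out (Quotient.mk s v)) = v := by
    intro v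
    have h2 : s.r v (Quotient.out (Quotient.mk s v)) :=
      Quotient.exact (Quotient.out_eq (Quotient.mk s v)).symm
    obtain ⟨n, hn⟩ := h2
    exact ⟨n, hn⟩
  choose c hc using h1
  refine ⟨c, fun n v => ?_⟩
  have h2 : Quotient.mk s ((n : G) • v) = Quotient.mk s v := Quotient.sound ⟨n, rfl⟩
  have h3 := hc ((n : G) • v)
  rw [h2] at h3
  have h4 : ((((n * c v)⁻¹ * c ((n : G) • v) : N)) : G) • (Quotient.out (Quotient.mk s v)) =
      Quotient.out (Quotient.mk s v) := by
    rw [Subgroup.coe_mul, mul_smul, h3, Subgroup.coe_inv, inv_smul_eq_iff, Subgroup.coe_mul,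
      mul_smul, hc v]
  have h5 := h _ (((n * c v)⁻¹ * c ((n : G) • v) : N)).2 _ h4
  have h6 : (n * c v)⁻¹ * c ((n : G) • v) = 1 := Subtype.ext h5
  exact (inv_mul_eq_one.1 h6).symm

/-- exchange of the two vertices -/
def sw (N : Subgroup G) : XX N V → XX N V :=
  Quotient.map Prod.swap (by
    rintro x y ⟨n, hn, rfl⟩
    exact ⟨n, hn, rfl⟩)

theorem sw_kk (N : Subgroup G) (u v : V) : sw N (kk N u v) = kk N v u := rfl

/-- the difference of the coordinates -/
def Df {N : Subgroup G} {c : V → N} (hc : ∀ (n : N) (v : V), c ((n : G) • v) = n * c v) :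
    XX N V → N :=
  Quotient.lift (fun p : V × V => (c p.1)⁻¹ * c p.2) (by
    rintro x y ⟨n, hn, rfl⟩
    show (c x.1)⁻¹ * c x.2 = (c (n • x.1))⁻¹ * c (n • x.2)
    have h1 := hc ⟨n, hn⟩ x.1
    have h2 := hc ⟨n, hn⟩ x.2
    simp only at h1 h2
    rw [h1, h2]
    group)

theorem Df_kk {N : Subgroup G} {c : V → N} (hc : ∀ (n : N) (v : V), c ((n : G) • v) = n * c v)
    (u v : V) : Df hc (kk N u v) = (c u)⁻¹ * c v := rfl

/-- the retraction before normalization -/
theorem retr0 (N : Subgroup G) (hN : FreeOn T N) {c : V → N}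
    (hc : ∀ (n : N) (v : V), c ((n : G) • v) = n * c v) :
    ∃ r : FreeGroup (XX N V) →* N, ∀ u v, T.Adj u v → r (sy (kk N) u v) = (c u)⁻¹ * c v := by
  classical
  let ψ : XX N V → N := fun x => if WellOrderingRel x (sw N x) then Df hc x else 1
  refine ⟨FreeGroup.lift ψ, fun u v huv => ?_⟩
  have hne : kk N u v ≠ kk N v u := by
    intro h
    obtain ⟨n, hn, h1, h2⟩ := kk_eq N h
    have h3 := hN.edge n hn u v huv h1 h2
    rw [h3, one_smul] at h1
    exact huv.ne h1
  have h0 : (FreeGroup.lift ψ) (sy (kk N) u v) = ψ (kk N u v) * (ψ (kk N v u))⁻¹ := by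
    unfold sy
    rw [map_mul, map_inv, FreeGroup.lift_apply_of, FreeGroup.lift_apply_of]
  rw [h0]
  rcases trichotomous_of (WellOrderingRel) (kk N u v) (kk N v u) with h | h | h
  · have h1 : ψ (kk N u v) = Df hc (kk N u v) := if_pos (by rw [sw_kk]; exact h)
    have h2 : ψ (kk N v u) = 1 := if_neg (by rw [sw_kk]; exact asymm_of _ h)
    rw [h1, h2, Df_kk, inv_one, mul_one]
  · exact absurd h hne
  · have h1 : ψ (kk N u v) = 1 := if_neg (by rw [sw_kk]; exact asymm_of _ h)
    have h2 : ψ (kk N v u) = Df hc (kk N v u) := if_pos (by rw [sw_kk]; exact h)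
    rw [h1, h2, Df_kk]
    group

end coord

section split

variable {G V : Type} [Group G] [MulAction G V] {T : SimpleGraph V}

/-- a subgroup acting freely is a retract of a free group -/
theorem split (hT : T.IsTree) (hact : ∀ (g : G) (u v : V), T.Adj u v → T.Adj (g • u) (g • v))
    (o : V) (N : Subgroup G) (hN : FreeOn T N) :
    ∃ (i : N →* FreeGroup (XX N V)) (r : FreeGroup (XX N V) →* N),
      (∀ n, r (i n) = n) ∧ ∀ n : N, i n = gam hT (sy (kk N)) o ((n : G) • o) := by
  obtain ⟨c, hc⟩ := coord N hN.vert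
  obtain ⟨r, hr⟩ := retr0 N hN hc
  have hsy : ∀ u v : V, T.Adj u v → sy (kk N) u v * sy (kk N) v u = 1 := fun u v _ => sy_mul _ u v
  have hinv : ∀ (n : N) (u v : V), kk N ((n : G) • u) ((n : G) • v) = kk N u v := fun n u v =>
    Quotient.sound ⟨(n : G)⁻¹, N.inv_mem n.2, by
      show ((n : G)⁻¹ • (n : G) • u, (n : G)⁻¹ • (n : G) • v) = (u, v)
      rw [inv_smul_smul, inv_smul_smul]⟩
  let i : N →* FreeGroup (XX N V) := MonoidHom.mk' (fun n => gam hT (sy (kk N)) o ((n : G) • o)) (by
    intro a b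
    have h1 := gam_map hT hact (sy (kk N)) hsy (a : G) (MonoidHom.id _)
      (fun u v => by
        show sy (kk N) u v = sy (kk N) _ _
        unfold sy
        rw [hinv, hinv]) o ((b : G) • o)
    rw [Subgroup.coe_mul, mul_smul, ← gam_mul hT _ hsy o ((a : G) • o) ((a : G) • (b : G) • o), h1]
    rfl)
  refine ⟨i, (MulAut.conj (c o)).toMonoidHom.comp r, fun n => ?_, fun n => rfl⟩
  show c o * r (gam hT (sy (kk N)) o ((n : G) • o)) * (c o)⁻¹ = n
  rw [map_gam, gam_tel hT _ c hr, hc]
  group

end split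

section main

variable {G V : Type} [Group G] [MulAction G V] {T : SimpleGraph V}
variable (W : Set (FreeGroup ℕ))

/-- the embedding -/
theorem embed (hT : T.IsTree) (hact : ∀ (g : G) (u v : V), T.Adj u v → T.Adj (g • u) (g • v))
    (N : Subgroup G) [N.Normal] (hN : FreeOn T N) :
    ∃ Θ : G →* Vf W (XX N V) ⋊[(vperm W (XX N V)).comp (qhom N V)] (G ⧸ N),
      Θ.ker = (verbal W N).map N.subtype := by
  obtain ⟨o⟩ := hT.connected.nonempty
  obtain ⟨i, r, hri, hi⟩ := split hT hact o N hN
  have hsy : ∀ u v : V, T.Adj u v → (QuotientGroup.mk' (verbal W (FreeGroup (XX N V)))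
      (sy (kk N) u v)) * (QuotientGroup.mk' (verbal W (FreeGroup (XX N V))) (sy (kk N) v u)) = 1 :=
    fun u v _ => by rw [← map_mul, sy_mul, map_one]
  let Θ := theta (Q := G ⧸ N) hT hact
    (fun u v => QuotientGroup.mk' (verbal W (FreeGroup (XX N V))) (sy (kk N) u v)) hsy o
    (QuotientGroup.mk' N) ((vperm W (XX N V)).comp (qhom N V)) (by
      intro g u v
      show vperm W (XX N V) (qhom N V (QuotientGroup.mk' N g)) (QuotientGroup.mk' _ _) = _
      rw [vperm_mk]
      congr 1)
  have hl : ∀ n : N, (Θ (n : G)).left = vmap W i (QuotientGroup.mk' _ n) := by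
    intro n
    show gam hT (fun u v => QuotientGroup.mk' (verbal W (FreeGroup (XX N V))) (sy (kk N) u v)) o
      ((n : G) • o) = _
    rw [← map_gam, vmap_mk, hi]
  have hr1 : ∀ n : N, (Θ (n : G)).right = 1 := fun n => (QuotientGroup.eq_one_iff _).2 n.2
  refine ⟨Θ, le_antisymm ?_ ?_⟩
  · intro g hg
    rw [MonoidHom.mem_ker] at hg
    have hgN : g ∈ N := by
      have h1 : (Θ g).right = 1 := by rw [hg]; rfl
      exact (QuotientGroup.eq_one_iff g).1 h1
    refine ⟨⟨g, hgN⟩, ?_, rfl⟩
    have h1 : (Θ g).left = 1 := by rw [hg]; rfl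
    have h2 := hl ⟨g, hgN⟩
    simp only at h2
    rw [h1] at h2
    have h3 : Function.Injective (vmap W i) :=
      vmap_injective_of_retract W i r (MonoidHom.ext fun n => hri n)
    have h4 : QuotientGroup.mk' (verbal W N) (⟨g, hgN⟩ : N) = 1 := h3 (by rw [← h2, map_one])
    exact (QuotientGroup.eq_one_iff _).1 h4
  · rintro _ ⟨n, hn, rfl⟩
    rw [MonoidHom.mem_ker]
    apply SemidirectProduct.ext
    · show (Θ (n : G)).left = 1
      rw [hl, show QuotientGroup.mk' (verbal W N) n = 1 from (QuotientGroup.eq_one_iff n).2 hn,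
        map_one]
    · exact hr1 n

variable {C : ∀ (G : Type) [Group G], Prop}

/-- **verbal quotients** -/
theorem main_mem (hC : ClosedE C) (hW : ∀ n : ℕ, C (Vf W (Fin n))) (hT : T.IsTree)
    (hact : ∀ (g : G) (u v : V), T.Adj u v → T.Adj (g • u) (g • v))
    (N : Subgroup G) [N.Normal] (hN : FreeOn T N) (hQ : C (G ⧸ N)) :
    C (G ⧸ (verbal W N).map N.subtype) := by
  obtain ⟨Θ, hΘ⟩ := embed W hT hact N hN
  refine hC.base.of_injective _ _ (QuotientGroup.lift ((verbal W N).map N.subtype) Θ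
    (fun x hx => by rw [← hΘ] at hx; exact hx)) ?_
    (semi_mem W hC hW (XX N V) (G ⧸ N) (qhom N V) hQ)
  rw [injective_iff_map_eq_one]
  intro x hx
  obtain ⟨g, rfl⟩ := QuotientGroup.mk'_surjective _ x
  have h1 : Θ g = 1 := hx
  have h2 : g ∈ Θ.ker := h1
  rw [hΘ] at h2
  exact (QuotientGroup.eq_one_iff g).2 h2

end main

end Pool.Agent.J4.H89.PV
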